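import Pool.Agent.Run7.h363.BD.FBFin
set_option autoImplicit false

/-!
Unramified classes with independent regulators in the Milnor K-theory of fibrations over products
of lines: on the varieties
`z + y_1 + ... + y_q + 1/(z y_1 ^ v_1 ... y_q ^ v_q) = λ ∏_k ∏_{0 ≤ i ≤ m_k} (x_k - b_{k,i})` of
dimension `n + q`, where `n ≥ 1`, `q ≥ 0`, `v_i ≥ 1` and `m_1, ..., m_n ≥ 1`, the integer `λ ≠ 0`, and
the rational integers `b_{k,i}` are different for fixed `k`, there are `m_1 ... m_n` unramified classes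
with linearly independent regulators, with finitely many exceptions up to translations of the
coordinates `x_k`. For `v_i = 1` the fibres over the `x`-space
are the members of the pencil `z + y_1 + ... + y_q + 1/(z y_1 ... y_q) = t` of Calabi-Yau varieties
of dimension `q` (points, elliptic curves, K3 surfaces, ...) mirror to the Dwork pencil, and
`m_1 ... m_n` is the geometric genus. Over number fields: an explicit criterion in terms of `|λ|`, lower
bounds for the distances of the roots, and the diameters of the sets of roots.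
-/

namespace Pool.Agent.Results.MP_15b3df_nt.AllButFinitelyManyFibrations

open Pool.Agent.TH690.PF (PRing mPhi mPhi_ne_C isDomain_PRing SmoothPts UnramSymb IndepReg
  unramSymb)

open Pool.Agent.Run7.h363.BD

variable {n q : ℕ}

/-- The conclusions, over the field `K` with the complex embedding `σ` (`v_i = w_i + 1`): the
coordinate ring of the affine hypersurface `F = Y z² + Y (y_1 + ... + y_q - Φ) z + 1 = 0`,
`Y = y_1 ^ v_1 ... y_q ^ v_q`, `Φ = λ ∏_k ∏_i (x_k - a_{k,i})` (that is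
`z + y_1 + ... + y_q + 1/(z y_1 ^ v_1 ... y_q ^ v_q) = Φ`) is a domain; the hypersurface is smooth at all
its complex points over `σ` (the partial derivatives `∂F/∂z`, `∂F/∂y_k` and
`∂F/∂x_j = - Y z ∂Φ/∂x_j` do not vanish simultaneously); for all `i = (i_k)` with `1 ≤ i_k ≤ m_k` the
symbol with the entries `z`, `(x_k - a_{k,i_k})/(x_k - a_{k,0})` and `y_1, ..., y_q` on the open part
`Φ ≠ 0` is unramified at all discrete valuations of the function field; and there are `∏_k m_k`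
tori of full real dimension (the dimension of the hypersurface) in the complex points (over `σ`) of the
open part, such that the determinant of the regulators on the tori of these `∏_k m_k` symbols
does not vanish. -/
def ManyClasses.{u, v} (w : Fin q → ℕ) {m : Fin (n + 1) → ℕ} {K : Type u} [Field K] (σ : K →+* ℂ)
    (lam : K) (a : ∀ k, Fin (m k + 1) → K) : Prop :=
  IsDomain (PRing w (mPhi lam a)) ∧ SmoothPts w σ (mPhi lam a) ∧
    UnramSymb.{u, v} w lam a ∧ IndepReg w σ lam a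

/-- the constant of the criterion; it depends only on the `v_i` and the `m_k` -/
noncomputable def bound (m : Fin (n + 1) → ℕ) (w : Fin q → ℕ) : ℝ :=
  1 + 2 * (∏ k, ((m k : ℝ) + 1)) + Real.log (4 + 2 * ∑ i, ((w i : ℝ) + 1)) +
    ∑ k, (((m k : ℝ) + 1) * Real.log 3 + Real.log (2 * ((m k : ℝ) + 1) ^ m k))

theorem criterion.{u, v} (w : Fin q → ℕ) {m : Fin (n + 1) → ℕ} {K : Type u} [Field K]
    [NumberField K] (σ : K →+* ℂ) (lam : K) (a : ∀ k, Fin (m k + 1) → K) (hl0 : lam ≠ 0)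
    (hlam : IsIntegral ℤ lam) (ha : ∀ k i, IsIntegral ℤ (a k i)) (δ : Fin (n + 1) → ℝ)
    (hδ : ∀ k, 0 < δ k) (hsep : ∀ k i j, i ≠ j → δ k ≤ ‖σ (a k i) - σ (a k j)‖)
    (x0 y0 : ∀ k, Fin (m k + 1)) (hne : ∀ k, x0 k ≠ y0 k)
    (h : bound m w ≤ Real.log ‖σ lam‖ + ∑ k, (((m k : ℝ) + 1) * Real.log (δ k) +
      max 0 (Real.log (‖σ (a k (x0 k)) - σ (a k (y0 k))‖ / (2 * δ k))) / (4 * (m k : ℝ) + 8))) :
    ManyClasses.{u, v} w σ lam a := by
  have h' : CstF m w ≤ Siz m ‖σ lam‖ δ fun k => ‖σ (a k (x0 k)) - σ (a k (y0 k))‖ := by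
    unfold CstF Siz
    unfold bound at h
    exact h
  exact ⟨isDomain_PRing (mPhi_ne_C lam a (Nat.succ_pos _) hl0),
    smoothPts_fin hl0 hδ hsep x0 y0 hne h', unramSymb w (Nat.succ_pos _) ha hlam hl0,
    indepReg_fin hl0 hδ hsep x0 y0 hne h'⟩

theorem rat_bounds.{v} (w : Fin q → ℕ) {m : Fin (n + 1) → ℕ} (hm1 : ∀ k, 1 ≤ m k) {c : ℤ}
    {b : ∀ k, Fin (m k + 1) → ℤ} (hc : c ≠ 0) (hb : ∀ k, Function.Injective (b k))
    (hb0 : ∀ k, b k 0 = 0) {σ : ℚ →+* ℂ}
    (h : ¬ ManyClasses.{0, v} w σ (c : ℚ) fun k i => (b k i : ℚ)) :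
    Real.log |(c : ℝ)| ≤ bound m w ∧
      ∀ k i, Real.log (|(b k i : ℝ)| / 2) ≤ bound m w * (4 * (m k : ℝ) + 8) := by
  classical
  have hσ : ∀ z : ℤ, ‖σ (z : ℚ)‖ = |(z : ℝ)| := by
    intro z
    rw [map_intCast, Complex.norm_intCast]
  have hcl : 0 ≤ Real.log |(c : ℝ)| := by
    apply Real.log_nonneg
    have : 1 ≤ |c| := Int.one_le_abs hc
    exact_mod_cast this
  have hC0 : 0 ≤ bound m w := by
    have h1 := CstF_eq m w
    have h2 := sum_log3_nonneg m
    have h3 := sum_logc_nonneg m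
    have h4 : bound m w = CstF m w := rfl
    have h5 : (0 : ℝ) ≤ ∏ k, ((m k : ℝ) + 1) := Finset.prod_nonneg fun k _ => by positivity
    have h6 : 0 ≤ Real.log (4 + 2 * ∑ i, ((w i : ℝ) + 1)) := Real.log_nonneg (by
      have : 0 ≤ ∑ i, ((w i : ℝ) + 1) := Finset.sum_nonneg fun i _ => by positivity
      linarith)
    linarith
  have key : ∀ (x0 : ∀ k, Fin (m k + 1)), (∀ k, x0 k ≠ 0) →
      Real.log |(c : ℝ)| + ∑ k, max 0 (Real.log (|(b k (x0 k) : ℝ)| / 2)) / (4 * (m k : ℝ) + 8) <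
        bound m w := by
    intro x0 hx0
    by_contra hcon
    apply h
    have hint : ∀ z : ℤ, IsIntegral ℤ (z : ℚ) := fun z => by
      have := isIntegral_algebraMap (R := ℤ) (A := ℚ) (x := z)
      simpa using this
    refine criterion w σ (c : ℚ) (fun k i => (b k i : ℚ)) (by exact_mod_cast hc) (hint c)
      (fun k i => hint (b k i)) (fun _ => 1) (fun _ => one_pos) (fun k i j hij => ?_) x0
      (fun _ => 0) hx0 ?_
    · rw [← map_sub, ← Int.cast_sub, hσ]
      have : 1 ≤ |b k i - b k j| := Int.one_le_abs (sub_ne_zero.2 fun hh => hij (hb k hh))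
      exact_mod_cast this
    · rw [not_lt] at hcon
      refine hcon.trans (le_of_eq ?_)
      rw [hσ]
      congr 1
      refine Finset.sum_congr rfl fun k _ => ?_
      rw [← map_sub, ← Int.cast_sub, hσ, hb0, sub_zero, Real.log_one, mul_zero, zero_add, mul_one]
  have hone : ∀ k, (1 : Fin (m k + 1)) ≠ 0 := by
    intro k hk
    have h1 : ((1 : Fin (m k + 1)) : ℕ) = 1 := by
      obtain ⟨s, hs⟩ : ∃ s, m k = s + 1 := ⟨m k - 1, by have := hm1 k; omega⟩
      rw [hs] at *
      exact Fin.val_one s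
    rw [hk] at h1
    simp at h1
  have hpos : ∀ k, (0 : ℝ) < 4 * (m k : ℝ) + 8 := fun k => by positivity
  have hnn : ∀ (x0 : ∀ k, Fin (m k + 1)) k,
      0 ≤ max 0 (Real.log (|(b k (x0 k) : ℝ)| / 2)) / (4 * (m k : ℝ) + 8) :=
    fun x0 k => div_nonneg (le_max_left _ _) (hpos k).le
  refine ⟨?_, fun k i => ?_⟩
  · have h1 := key (fun k => 1) hone
    have h2 := Finset.sum_nonneg fun k (_ : k ∈ Finset.univ) => hnn (fun k => 1) k
    linarith
  · by_cases hi : i = 0
    · rw [hi, hb0]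
      simp only [Int.cast_zero, abs_zero, zero_div, Real.log_zero]
      exact mul_nonneg hC0 (hpos k).le
    · have h1 := key (Function.update (fun k => 1) k i) (fun l => by
        by_cases hl : l = k
        · subst hl
          rwa [Function.update_self]
        · rw [Function.update_of_ne hl]
          exact hone l)
      have h2 := Finset.single_le_sum (fun l (_ : l ∈ Finset.univ) =>
        hnn (Function.update (fun k => 1) k i) l) (Finset.mem_univ k)
      simp only [Function.update_self] at h2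
      have h3 : max 0 (Real.log (|(b k i : ℝ)| / 2)) / (4 * (m k : ℝ) + 8) ≤ bound m w := by
        linarith
      rw [div_le_iff₀ (hpos k)] at h3
      exact (le_max_right _ _).trans h3

/-- Let `n ≥ 1` (below `n + 1` is written for `n`), `q ≥ 0`, `v_i = w_i + 1 ≥ 1`, `i = 1, ..., q`,
and `m_1, ..., m_n ≥ 1`.

*Number fields.* Let `K` be a number field, `σ` a complex embedding of `K`, let `λ ≠ 0` and
`a_{k,i}` (`0 ≤ i ≤ m_k`) be algebraic integers of `K`, `δ_k > 0` and
`|σ a_{k,i} - σ a_{k,j}| ≥ δ_k` for `i ≠ j`, and let `D_k` be the distance of two of the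
`σ a_{k,i}`. If
`log |σ λ| + ∑_k ((m_k + 1) log δ_k + max (0, log (D_k / (2 δ_k))) / (4 m_k + 8)) ≥ bound m w`, then
`ManyClasses` holds for `z + y_1 + ... + y_q + 1/(z y_1 ^ v_1 ... y_q ^ v_q) =
λ ∏_k ∏_i (x_k - a_{k,i})`.

*Rational integers.* Consider the hypersurfaces
`z + y_1 + ... + y_q + 1/(z y_1 ^ v_1 ... y_q ^ v_q) = c ∏_k ∏_i (x_k - b_{k,i})` over `ℚ`, where
`c ≠ 0` and the `b_{k,i}` are rational integers, `b_{k,i} ≠ b_{k,j}` for `i ≠ j` and `b_{k,0} = 0`
(which can be reached by translations of the coordinates `x_k`). `ManyClasses` holds for all but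
finitely many of them. -/
theorem result.{u, v} (n q : ℕ) (w : Fin q → ℕ) (m : Fin (n + 1) → ℕ) (hm : ∀ k, 1 ≤ m k) :
    (∀ (K : Type u) [Field K] [NumberField K] (σ : K →+* ℂ) (lam : K)
      (a : ∀ k, Fin (m k + 1) → K), lam ≠ 0 → IsIntegral ℤ lam → (∀ k i, IsIntegral ℤ (a k i)) →
      ∀ δ : Fin (n + 1) → ℝ, (∀ k, 0 < δ k) →
      (∀ k i j, i ≠ j → δ k ≤ ‖σ (a k i) - σ (a k j)‖) →
      ∀ x0 y0 : ∀ k, Fin (m k + 1), (∀ k, x0 k ≠ y0 k) →
      bound m w ≤ Real.log ‖σ lam‖ + ∑ k, (((m k : ℝ) + 1) * Real.log (δ k) +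
        max 0 (Real.log (‖σ (a k (x0 k)) - σ (a k (y0 k))‖ / (2 * δ k))) / (4 * (m k : ℝ) + 8)) →
      ManyClasses.{u, v} w σ lam a) ∧
    {p : ℤ × (∀ k, Fin (m k + 1) → ℤ) | p.1 ≠ 0 ∧ (∀ k, Function.Injective (p.2 k)) ∧
      (∀ k, p.2 k 0 = 0) ∧
      ¬ ManyClasses.{0, v} w (Rat.castHom ℂ) (p.1 : ℚ) fun k i => (p.2 k i : ℚ)}.Finite := by
  classical
  refine ⟨fun K _ _ σ lam a hl0 hlam ha δ hδ hsep x0 y0 hne h =>
    criterion w σ lam a hl0 hlam ha δ hδ hsep x0 y0 hne h, ?_⟩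
  set M : ℝ := Real.exp (bound m w) +
    ∑ k, 2 * Real.exp (bound m w * (4 * (m k : ℝ) + 8)) with hM
  set N : ℤ := ⌈M⌉ with hN
  have hMN : M ≤ (N : ℝ) := Int.le_ceil M
  refine (Set.finite_Icc ((-N, fun _ _ => -N) : ℤ × (∀ k, Fin (m k + 1) → ℤ))
    (N, fun _ _ => N)).subset ?_
  rintro ⟨c, b⟩ ⟨hc, hb, hb0, hp⟩
  obtain ⟨h1, h2⟩ := rat_bounds.{v} w hm hc hb hb0 hp
  have hnn : ∀ k, 0 ≤ 2 * Real.exp (bound m w * (4 * (m k : ℝ) + 8)) := fun k =>
    mul_nonneg zero_le_two (Real.exp_pos _).le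
  have hcN : |c| ≤ N := by
    have h3 : |(c : ℝ)| ≤ Real.exp (bound m w) := by
      have h4 : 0 < |(c : ℝ)| := abs_pos.2 (by exact_mod_cast hc)
      rwa [← Real.log_le_iff_le_exp h4]
    have h5 := Finset.sum_nonneg fun k (_ : k ∈ Finset.univ) => hnn k
    have h6 : |(c : ℝ)| ≤ (N : ℝ) := by linarith
    exact_mod_cast h6
  have hbN : ∀ k i, |b k i| ≤ N := by
    intro k i
    have h5 := Finset.single_le_sum (fun k (_ : k ∈ Finset.univ) => hnn k) (Finset.mem_univ k)
    have h7 := (Real.exp_pos (bound m w)).le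
    have h6 : |(b k i : ℝ)| ≤ (N : ℝ) := by
      by_cases hbi : b k i = 0
      · rw [hbi]
        simp only [Int.cast_zero, abs_zero]
        linarith [hnn k]
      · have h4 : 0 < |(b k i : ℝ)| / 2 := by
          have : 0 < |(b k i : ℝ)| := abs_pos.2 (by exact_mod_cast hbi)
          linarith
        have h3 := (Real.log_le_iff_le_exp h4).1 (h2 k i)
        linarith
    exact_mod_cast h6
  rw [Set.mem_Icc, Prod.le_def, Prod.le_def]
  refine ⟨⟨(abs_le.1 hcN).1, ?_⟩, (abs_le.1 hcN).2, ?_⟩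
  · intro k i
    exact (abs_le.1 (hbN k i)).1
  · intro k i
    exact (abs_le.1 (hbN k i)).2

end Pool.Agent.Results.MP_15b3df_nt.AllButFinitelyManyFibrations
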