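import Pool.Agent.Run7.h406.Fb.Sing
import Pool.Agent.TH690.PF.Smooth
set_option autoImplicit false

/-!
A sharp criterion for independent classes in the Milnor K-theory of fibrations over the line: on
the varieties `z + y_1 + ... + y_q + 1/(z y_1 ^ v_1 ... y_q ^ v_q) = F(x)`,
`F = λ (x - b_0) ... (x - b_r)`, of dimension `q + 1` over a number field, where `q ≥ 0`,
`v_i ≥ 1`, there are `r` unramified classes with linearly independent regulators, as soon as all
critical values of `F` have absolute value larger than `q + 2`. There is no condition on the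
mutual position of the zeros. For `v_i = 1` the constant `q + 2` cannot be replaced by a smaller
one even for the smoothness of the variety. Over `ℚ` the condition holds for all distinct integers
`b_i` and all integers `λ = c ≠ 0` with `q + 2 < |c| ∏_{0 ≤ k ≤ r} (⌊k/2⌋ + 1/2)`, for example for
all `c ≠ 0` and all distinct integers `b_i` if `r ≥ 5` and `q ≤ 1`, or if `r ≥ 6` and `q ≤ 10`.
For `v_i = 1` the fibres over the `x`-line are the members of the pencil
`z + y_1 + ... + y_q + 1/(z y_1 ... y_q) = t` of Calabi-Yau varieties of dimension `q` (points,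
elliptic curves, K3 surfaces, ...) mirror to the Dwork pencil.
-/

namespace Pool.Agent.Results.MP_15b3df_nt.CalabiYauCriterion

open Polynomial

open Pool.Agent.TH690.PF (PRing mPhi mPhi_ne_C isDomain_PRing SmoothPts UnramSymb IndepReg
  unramSymb)

/-- The four properties of the fibration
`z + y_1 + ... + y_q + 1/(z y_1 ^ v_1 ... y_q ^ v_q) = F(x)`, `F = λ (x - b_0) ... (x - b_r)`,
`v_i = w_i + 1`, over the field `K` with the complex embedding `σ`: the coordinate ring of the
affine hypersurface `Y z² + Y (y_1 + ... + y_q - F(x)) z + 1 = 0`,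
`Y = y_1 ^ v_1 ... y_q ^ v_q`, of dimension `q + 1` is a domain; the hypersurface is smooth at all
its complex points over `σ`; for all `1 ≤ i ≤ r` the symbol
`{z, (x - b_i)/(x - b_0), y_1, ..., y_q}` on the open part `F ≠ 0` is unramified at all
discrete valuations of the function field; and there are `r` tori of dimension `q + 1` in the
complex points (over `σ`) of the open part, such that the determinant of the regulators on the
tori of these `r` symbols does not vanish. -/
def Classes.{u, v} {K : Type u} [Field K] {q r : ℕ} (w : Fin q → ℕ) (σ : K →+* ℂ) (lam : K)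
    (b : Fin (r + 1) → K) : Prop :=
  IsDomain (PRing w (mPhi (n := 1) (m := fun _ => r) lam fun _ => b)) ∧
    SmoothPts w σ (mPhi (n := 1) (m := fun _ => r) lam fun _ => b) ∧
    UnramSymb.{u, v} (n := 1) (m := fun _ => r) w lam (fun _ => b) ∧
    IndepReg (n := 1) (m := fun _ => r) w σ lam (fun _ => b)

/-- Let `q, r ≥ 0` and `v_i = w_i + 1 ≥ 1`, `i = 1, ..., q`, be integers.

1. Let `σ` be a complex embedding of the number field `K`, let `λ ≠ 0` and `b_0, ..., b_r` be
algebraic integers of `K`, the `b_i` distinct, and assume that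
`|σ(λ)| |∏_i (x - σ(b_i))| > q + 2` at all zeros `x ∈ ℂ` of the derivative of
`∏_i (x - σ(b_i))`. Then `Classes` holds.

2. Let `c ≠ 0` be an integer and `b_0, ..., b_r` distinct integers, and assume that
`|c| ∏_{0 ≤ k ≤ r} (⌊k/2⌋ + 1/2) > q + 2`. Then `Classes` holds over `K = ℚ` for `λ = c`.

3. The bound in the first part is the best possible one for `v_i = 1`: if `σ` is a complex
embedding of a field `K` and `λ` and `b_0, ..., b_r` are elements of `K` such that
`σ(λ) ∏_i (x - σ(b_i)) = (q + 2) ζ` at a zero `x` of the derivative of `∏_i (x - σ(b_i))`, where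
`ζ ^ (q + 2) = 1`, then the hypersurface of `λ`, the `b_i` and `v_i = 1` is not smooth at its
complex points over `σ`. -/
theorem result.{u, v} (q r : ℕ) :
    (∀ (w : Fin q → ℕ) (K : Type u) [Field K] [NumberField K] (σ : K →+* ℂ) (lam : K)
      (b : Fin (r + 1) → K), IsIntegral ℤ lam → (∀ i, IsIntegral ℤ (b i)) → lam ≠ 0 →
      Function.Injective b →
      (∀ x : ℂ, (derivative (∏ i, (X - C (σ (b i))))).eval x = 0 →
        (q : ℝ) + 2 < ‖σ lam‖ * ‖∏ i, (x - σ (b i))‖) → Classes.{u, v} w σ lam b) ∧
    (∀ (w : Fin q → ℕ) (σ : ℚ →+* ℂ) (c : ℤ) (b : Fin (r + 1) → ℤ), c ≠ 0 →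
      Function.Injective b →
      (q : ℝ) + 2 < |(c : ℝ)| * ∏ k ∈ Finset.range (r + 1), (((k / 2 : ℕ) : ℝ) + 1 / 2) →
      Classes.{0, v} w σ (c : ℚ) fun i => (b i : ℚ)) ∧
    ∀ (K : Type u) [Field K] (σ : K →+* ℂ) (lam : K) (b : Fin (r + 1) → K) (x ζ : ℂ),
      (derivative (∏ i, (X - C (σ (b i))))).eval x = 0 → ζ ^ (q + 2) = 1 →
      σ lam * ∏ i, (x - σ (b i)) = (q + 2) * ζ →
      ¬ SmoothPts (fun _ : Fin q => 0) σ (mPhi (n := 1) (m := fun _ => r) lam fun _ => b) := by
  refine ⟨fun w K _ _ σ lam b hlam hb hl hinj hcrit => ?_, fun w σ c b hc hb h => ?_,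
    fun K _ σ lam b x ζ hx hζ hv => Pool.Agent.Run7.h406.Fb.not_smoothPts hx hζ hv⟩
  · exact ⟨isDomain_PRing (mPhi_ne_C lam _ Nat.one_pos hl),
      Pool.Agent.Run7.h406.Fb.smoothPts_one w hl hcrit,
      unramSymb w Nat.one_pos (fun _ => hb) hlam hl,
      Pool.Agent.Run7.h406.Fb.indepReg w hl hinj hcrit⟩
  · have hl : (c : ℚ) ≠ 0 := Int.cast_ne_zero.2 hc
    have hinj : Function.Injective fun i => (b i : ℚ) := fun i j hij =>
      hb (Int.cast_injective hij)
    have hcrit := Pool.Agent.Run7.h406.Fb.crit_of_int σ c b hb h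
    exact ⟨isDomain_PRing (mPhi_ne_C _ _ Nat.one_pos hl),
      Pool.Agent.Run7.h406.Fb.smoothPts_one w hl hcrit,
      unramSymb w Nat.one_pos (fun _ i => (isIntegral_algebraMap (x := b i) : IsIntegral ℤ
        (algebraMap ℤ ℚ (b i)))) (isIntegral_algebraMap (x := c)) hl,
      Pool.Agent.Run7.h406.Fb.indepReg w hl hinj hcrit⟩

end Pool.Agent.Results.MP_15b3df_nt.CalabiYauCriterion
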