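import Pool.Agent.Run7.h153.PC.Many
import Pool.Agent.N76.LP.All

set_option autoImplicit false

/-!
Beilinson's conjecture (`i = 1`, `m = 0`, `n = 2`) for hyperelliptic curves over number fields: surjectivity of the
regulator onto the *full* Deligne cohomology at any number of complex places, after a finite extension of the number
field, for all curves `C : y² = D(x)` for which the difference of the two points at infinity is torsion, except for those
which are coverings of a totally real curve of positive genus in the sense below.

Let `P² - D Q² = 1` be the Pell equation, `2 P` monic with integral coefficients over the number field `K`, and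
`z = P + Q y`. The starting result `MP_15b3df_nt.SurjectiveRegulators` bounds the codimension of the span of the
regulators of the symbols `{z, (x - b_i) / (x - b_j)}` of the special points, at the place `τ`, by the number `k_τ ≤ g` of
the critical points of `P` at which `P` is real and outside of `[-1, 1]`. So surjectivity was known if there are no such
points, a condition which most curves over real fields violate. Here `k_τ` is replaced by the *defect* of `P` at `τ`, an
arithmetic-geometric invariant which is almost always zero: the largest number of critical points `ζ` with `|A(ζ)| > 1` of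
a real polynomial `A` such that `P = A ∘ u` and such that `A` is totally real over `(-1, 1)`. This number is the genus of
the totally real curve `v² = A(u)² - 1` which is covered by `C` and on which the unit `z` is defined. For example it is
zero if `P` is not a composition `A ∘ u` with `A` real of degree at least two, in particular if the degree of `P` is a
prime number and `P` is not totally real up to a linear change of the variable.

The method: on a combination of loops whose regulator integrals are constant, a certain rational function `Θ` on the
`x`-line (a derivative of the regulator integral along the real values of `P`) is real at all points where `P` is in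
`(-1, 1)`, so it lies in `ℝ(w)` for the largest totally real `P = A ∘ w` (Lüroth), and all its poles are computed: they
can only lie over the critical points `ζ` of `A` with `|A(ζ)| > 1`, with orders at most `2 e - 1`, where `e` is the
ramification index, while `Θ` determines the periods as soon as all these orders are at most `e`.
-/

namespace Pool.Agent.Results.MP_15b3df_nt.DefectOfRegulators

open Polynomial

open Pool.Agent.Y94.R

open Pool.Agent.N76.SR (UnramifiedSymbols IndependentRegulators)

open Pool.Agent.Run7.h153.PC (defect)

open scoped Classical in
/-- Let `K` be a number field, `D` a squarefree polynomial of degree `2 g + 2` over `K`, and `P² - D Q² = 1`, `P' = r Q`,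
where `2 P` is monic, not constant and has integral coefficients. For an embedding `τ` of `K` in `ℂ` let `d_τ` be the
defect of `P` at `τ`: the largest number of the critical points `ζ`, with multiplicities, with `|A(ζ)| > 1` of a real
polynomial `A` with `P^τ = A ∘ u` for some `u` such that all points of `ℂ` at which `A` has a value in `(-1, 1)` are real.
Then `d_τ` is at most the number of the roots `β` of `r` at `τ`, with multiplicities, such that `P(β)` is real and
`|P(β)| > 1`, which is at most `g`. There are `2 g` loops `γ_{τ,l} = (x_{τ,l}, y_{τ,l})` in the complex points of the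
curve `y² = D(x)` over each `τ`, with `y_{τ,l} ≠ 0`, whose period vectors `(∫ x^j dx / y)_{j < g}` are linearly
independent over `ℝ` (that is, the loops are a basis of the first homology of the complete curve over `τ` with rational
coefficients), such that the following holds for all `m ≥ 1`, *any* embeddings `σ_1, ..., σ_m` of `K` in `ℂ`, repetitions
allowed, and all `p ≥ 2`. Let `R = 2 g m - ∑ d_{σ_a}`.

There is an `N₀` with the following properties. Let `N ≥ N₀` be prime to `p` and to the discriminant of `K`, and let `L`
be a number field over `K` which contains all roots `b` of the polynomial `C_N(2 P(x)) - 2`, that is, all `b` with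
`2 P(b) = ζ + 1/ζ`, `ζ ^ N = 1`. The coordinate ring of `C` over `L` is a domain, the complex points of `C` over all
embeddings of `L` are smooth, and for every embedding `s_1` of `L` above `σ_1` there are embeddings `s_2, ..., s_m` of `L`
above `σ_2, ..., σ_m` and roots `b_0, ..., b_R`, such that the symbols `{P + Q y, (x - b_i) / (x - b_j)}` are unramified
at all discrete valuations of the function field of `C`, and the `R` vectors of the regulators of the symbols
`{P + Q y, (x - b_i) / (x - b_0)}` on all the `2 g m` loops `γ_{σ_a,l}`, in the complex points over `s_a`, are linearly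
independent over `ℝ`. -/
theorem result.{u, v, w} (g : ℕ) (K : Type u) [Field K] [NumberField K] (D P Q r : K[X])
    (hD : Squarefree D) (hdeg : D.natDegree = 2 * g + 2) (hPQ : P ^ 2 - D * Q ^ 2 = 1) (hP : 0 < P.natDegree)
    (hr : derivative P = r * Q) (hmon : (C 2 * P).Monic) (hint : ∀ i, IsIntegral ℤ ((C 2 * P).coeff i)) :
    (∀ τ : K →+* ℂ, defect (P.map τ) ≤ Multiset.card ((r.map τ).roots.filter fun β =>
      ((P.map τ).eval β).im = 0 ∧ 1 < |((P.map τ).eval β).re|) ∧
      Multiset.card ((r.map τ).roots.filter fun β =>
        ((P.map τ).eval β).im = 0 ∧ 1 < |((P.map τ).eval β).re|) ≤ g) ∧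
    ∃ γ : ∀ τ : K →+* ℂ, Fin (2 * g) → Lp (D.map τ),
      (∀ τ, LinearIndependent ℝ fun (l : Fin (2 * g)) (j : Fin g) =>
        ∫ t in (0 : ℝ)..1, (γ τ l).x t ^ (j : ℕ) * deriv (γ τ l).x t / (γ τ l).y t) ∧
      ∀ (m R : ℕ) (hm : 0 < m) (σ : Fin m → (K →+* ℂ)), R + ∑ a, defect (P.map (σ a)) = 2 * g * m →
      ∀ p : ℕ, 2 ≤ p →
      ∃ N₀ : ℕ, ∀ N : ℕ, N₀ ≤ N → N.Coprime p → N.Coprime (NumberField.discr K).natAbs →
      ∀ (L : Type v) [Field L] [NumberField L] [Algebra K L],
      ((Chebyshev.C L N).comp (C 2 * P.map (algebraMap K L)) - C 2).Splits →
      IsDomain (HRing (D.map (algebraMap K L))) ∧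
      (∀ (s : L →+* ℂ) (x y : ℂ), y ^ 2 = (D.map (algebraMap K L)).eval₂ s x →
        2 * y ≠ 0 ∨ (derivative (D.map (algebraMap K L))).eval₂ s x ≠ 0) ∧
      ∀ s₁ : L →+* ℂ, s₁.comp (algebraMap K L) = σ ⟨0, hm⟩ →
      ∃ (hPQL : (P.map (algebraMap K L)) ^ 2 - D.map (algebraMap K L) * (Q.map (algebraMap K L)) ^ 2 = 1)
        (s : Fin m → (L →+* ℂ)) (b : Fin (R + 1) → L),
        s ⟨0, hm⟩ = s₁ ∧
        (∀ a, (s a).comp (algebraMap K L) = σ a) ∧
        (∀ i, (Chebyshev.C L N).eval ((C 2 * P.map (algebraMap K L)).eval (b i)) = 2) ∧
        UnramifiedSymbols.{v, w} hPQL b ∧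
        IndependentRegulators hPQL s (fun a l => (γ (σ a) l).x) (fun a l => (γ (σ a) l).y) b := by
  have hr0 : r ≠ 0 := by
    rintro rfl
    rw [zero_mul, Polynomial.derivative_eq_zero] at hr
    omega
  have hpell : ∀ τ : K →+* ℂ, Pell (D.map τ) (P.map τ) (Q.map τ) (r.map τ) := fun τ =>
    ⟨by rw [← Polynomial.map_pow, ← Polynomial.map_pow, ← Polynomial.map_mul, ← Polynomial.map_sub, hPQ,
        Polynomial.map_one], by rw [derivative_map, hr, Polynomial.map_mul], by rwa [natDegree_map]⟩
  have hloops : ∀ τ : K →+* ℂ, _ := fun τ => Pool.Agent.N76.LP.exists_loops (g := g) (D := D.map τ) (P := P.map τ)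
    (r := r.map τ) ((PerfectField.separable_iff_squarefree.2 hD).map (f := τ)).squarefree
    (by rw [natDegree_map, hdeg]) (by rwa [natDegree_map]) ((Polynomial.map_ne_zero_iff τ.injective).2 hr0)
  refine ⟨fun τ => ⟨Pool.Agent.Run7.h153.PC.defect_le (hpell τ), ?_⟩, fun τ => (hloops τ).choose,
    fun τ => (hloops τ).choose_spec.1, fun m R hm σ hR p hp => ?_⟩
  · have h1 := (hpell τ).natDegree_r (g := g) (by rw [natDegree_map, hdeg])
    exact (Multiset.card_le_card (Multiset.filter_le _ _)).trans ((card_roots' _).trans h1.le)
  · exact Pool.Agent.Run7.h153.PC.all' g m (2 * g) R hm K D P Q r hD hdeg hPQ hP hr hmon hint σ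
      (fun a => (hloops (σ a)).choose) (fun a => (hloops (σ a)).choose_spec.1)
      (fun a => (hloops (σ a)).choose_spec.2.2) (by rw [hR]; ring) p hp

end Pool.Agent.Results.MP_15b3df_nt.DefectOfRegulators
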