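import Pool.Agent.Run7.h453.PC.Any

/-!
# The leading coefficient `L*(X, m)` at all integers `m` as a limit of sums of traces of Frobenius

Let `X` be a smooth projective variety over a number field `K` (over `ℚ` in the question), `i` a degree,
`F(s) = L(X, s)` the L-function of `H^i(X)` and `m` an integer with `m ≤ i/2 + 1`: the points `m < i/2` of the
question, critical or not, and also the central, near-central and edge points.  For a prime `v` with `q`
elements in the residue field let `t_{v,k}` be the trace of the `k`-th power of the geometric Frobenius on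
(the inertia invariants of) `H^i(X)`.  For `γ > π/2` and `T > 0` put

`W(T) = -∑_v ∑_{k ≥ 1} t_{v,k} / (k q^{mk}) · exp(iγ k log q / T) / Γ(1 + k log q / T)`.

Because of the decay of `1/Γ` this series converges absolutely for every integer `m`, although for `m < i/2` its
terms without the weight are unbounded; the weight of each single term tends to `1` as `T → ∞`.  Assume only that
`F` has a meromorphic continuation to the points of the real segment from `m` to `i/2 + 1`, where the Euler product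
begins to converge.  Nothing is assumed about zeros or about a functional equation.  Then

`W(T) = ρ (log T - Λ_γ) - log |c| + π i Z + O(1/T)`,

where `ρ` is the order and `c = L*(X, m)` the leading coefficient of `F` at `m`, and `Z` the number of the zeros
minus the number of the poles of `F` in `(m, ∞)`.  So `ord_{s=m} L(X,s) = ρ` if and only if
`Re W(T_k) / log T_k → ρ` for one sequence `T_k → ∞`; and, if `D ≠ 0` is a real number, for example the
volume `R_𝓓` of the question, then `L*(X, m) ∈ ℚ^* D` if and only if `exp(W(T_k)) / T_k^ρ` converges to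
`e^{-ρΛ_γ} / (y D)` for some rational number `y ≠ 0` and one sequence `T_k → ∞`.
-/

set_option autoImplicit false

open Filter Topology Set NumberField IsDedekindDomain

namespace Pool.Agent.Results.MP_15b3df_nt.TraceLimitFormula

variable {K : Type} [Field K] [NumberField K] {n N : ℕ}

/-- The set `X` of homogeneous polynomials over a ring `R` in `n` variables defines a projective
scheme over `R`.  For a field `κ` with `q` elements and a homomorphism `R → κ` this is `(q - 1)`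
times the number of the points of `X` with coordinates in `κ`: the number of the nonzero solutions
of the equations. -/
noncomputable def cone {R : Type} [CommRing R] (X : Set (MvPolynomial (Fin n) R)) {κ : Type}
    [Field κ] (φ : R →+* κ) : ℕ :=
  Nat.card {u : Fin n → κ // u ≠ 0 ∧ ∀ f ∈ X, MvPolynomial.eval₂ φ u f = 0}

/-- `α_1, …, α_N` are the eigenvalues of the geometric Frobenius at the prime `v` of `K` on `H^i(X)`,
for a variety `X` of dimension `d`: there are finite multisets `β_k` of complex numbers of absolute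
value `q^{k/2}`, `k = 0, …, 2d`, `q` the norm of `v`, with `β_i = {α_1, …, α_N}`, such that for every finite
extension `κ` of the residue field of `v`, of degree `e`, the number of the points of `X` with coordinates in
`κ` is `∑ (-1)^k ∑_{z ∈ β_k} z^e`.  By the theorem of Deligne such `β_k` exist at the primes of good reduction,
with `N` the `i`-th Betti number of `X`; for `k ≤ 2d` they are unique. -/
def IsFrobenius (X : Set (MvPolynomial (Fin n) (𝓞 K))) (d i : ℕ)
    (v : HeightOneSpectrum (𝓞 K)) (α : Fin N → ℂ) : Prop :=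
  ∃ β : ℕ → Multiset ℂ, β i = Finset.univ.val.map α ∧
    (∀ k, ∀ z ∈ β k, ‖z‖ = (Ideal.absNorm v.asIdeal : ℝ) ^ ((k : ℝ) / 2)) ∧
    ∀ (κ : Type) [Field κ] [Finite κ] (φ : 𝓞 K →+* κ) (e : ℕ), RingHom.ker φ = v.asIdeal →
      Nat.card κ = Ideal.absNorm v.asIdeal ^ e →
      (cone X φ : ℂ) = ((Ideal.absNorm v.asIdeal : ℂ) ^ e - 1) *
          ∑ k ∈ Finset.range (2 * d + 1), (-1 : ℂ) ^ k * ((β k).map (fun z => z ^ e)).sum

/-- `F(s)` is `L(X, s)`, the L-function of `H^i(X)`: an Euler product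
`∏_v ∏_j (1 - α_{v,j} q_v^{-s})⁻¹` for `Re s > i/2 + 1`, where the `α_{v,j}` are the eigenvalues of Frobenius
for `v` outside the finite set `S`, and at the primes in `S` the zeros of a real polynomial, of absolute value
at most `q_v^{i/2}` (the eigenvalues of Frobenius on the invariants of inertia, completed by zeros); and `F` is
meromorphic at the points of the real segment from `m` to `i/2 + 1`. -/
structure IsLFunction (X : Set (MvPolynomial (Fin n) (𝓞 K))) (d i : ℕ) (m : ℤ)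
    (S : Finset (HeightOneSpectrum (𝓞 K))) (α : HeightOneSpectrum (𝓞 K) → Fin N → ℂ)
    (F : ℂ → ℂ) : Prop where
  le : i ≤ 2 * d
  good : ∀ v ∉ S, IsFrobenius X d i v (α v)
  bad : ∀ v ∈ S, (∀ j, ‖α v j‖ ≤ (Ideal.absNorm v.asIdeal : ℝ) ^ ((i : ℝ) / 2)) ∧
    ∃ P : Polynomial ℝ, P.map (algebraMap ℝ ℂ) = ∏ j, (Polynomial.X - Polynomial.C (α v j))
  mero : ∀ x : ℝ, (m : ℝ) ≤ x → x ≤ (i : ℝ) / 2 + 1 → MeromorphicAt F (x : ℂ)
  prod : ∀ s : ℂ, (i : ℝ) / 2 + 1 < s.re → F s =
    ∏' v : HeightOneSpectrum (𝓞 K), ∏ j, (1 - α v j * (Ideal.absNorm v.asIdeal : ℂ) ^ (-s))⁻¹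

/-- The weight `exp(iγ t / T) / Γ(1 + t / T)`. -/
noncomputable def weight (γ T t : ℝ) : ℂ :=
  Complex.exp ((γ * (t / T) : ℝ) * Complex.I) * ((Real.Gamma (1 + t / T))⁻¹ : ℝ)

/-- The term of `W(T)` for the prime `v = x.1` and `k = x.2 + 1`; `∑_j α_{v,j}^k` is the trace of the `k`-th
power of Frobenius. -/
noncomputable def term (m : ℤ) (α : HeightOneSpectrum (𝓞 K) → Fin N → ℂ) (γ T : ℝ)
    (x : HeightOneSpectrum (𝓞 K) × ℕ) : ℂ :=
  -((∑ j, α x.1 j ^ (x.2 + 1)) /
      ((x.2 + 1) * (Ideal.absNorm x.1.asIdeal : ℂ) ^ (m * (x.2 + 1)))) *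
    weight γ T ((x.2 + 1) * Real.log (Ideal.absNorm x.1.asIdeal))

/-- `W(T)` -/
noncomputable def W (m : ℤ) (α : HeightOneSpectrum (𝓞 K) → Fin N → ℂ) (γ T : ℝ) : ℂ :=
  ∑' x, term m α γ T x

/-- `Λ_γ = ∫_0^∞ (e^{-u} - e^{iγu} / Γ(1 + u)) du / u` -/
noncomputable def Lam (γ : ℝ) : ℂ := ∫ u in Set.Ioi (0 : ℝ),
  (Complex.exp (-(u : ℂ)) - Complex.exp ((γ * u : ℝ) * Complex.I) * ((Real.Gamma (1 + u))⁻¹ : ℝ)) / u

/-- `Z`, the number of the zeros minus the number of the poles of `F` in the interval `(m, ∞)`, counted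
with multiplicity. -/
noncomputable def excess (F : ℂ → ℂ) (m : ℤ) : ℤ :=
  ∑ᶠ x ∈ Set.Ioi (m : ℝ), (meromorphicOrderAt F (x : ℂ)).untop₀

/-- `F` has the order `ρ` and the leading coefficient `B` at `m`. -/
def Leading (F : ℂ → ℂ) (m ρ : ℤ) (B : ℂ) : Prop :=
  Tendsto (fun s : ℂ => (s - m) ^ (-ρ) * F s) (𝓝[≠] (m : ℂ)) (𝓝 B)

/-- The main term `ρ (log T - Λ_γ) - log |B| + π i Z`. -/
noncomputable def mainTerm (F : ℂ → ℂ) (m ρ : ℤ) (B : ℝ) (γ T : ℝ) : ℂ :=
  ρ * (Real.log T - Lam γ) - Real.log |B| + Real.pi * excess F m * Complex.I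

section proof

variable {X : Set (MvPolynomial (Fin n) (𝓞 K))} {d i : ℕ} {m : ℤ}
  {S : Finset (HeightOneSpectrum (𝓞 K))} {α : HeightOneSpectrum (𝓞 K) → Fin N → ℂ} {F : ℂ → ℂ}

theorem frob_eq {v : HeightOneSpectrum (𝓞 K)} {β : Fin N → ℂ} (h : IsFrobenius X d i v β) :
    Pool.Agent.TH958.BV.IsFrobenius X d i v β := h

theorem IsLFunction.norm (h : IsLFunction X d i m S α F) (v : HeightOneSpectrum (𝓞 K)) (j : Fin N) :
    ‖α v j‖ ≤ (Ideal.absNorm v.asIdeal : ℝ) ^ ((i : ℝ) / 2) := by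
  by_cases hv : v ∈ S
  · exact (h.bad v hv).1 j
  · exact (Pool.Agent.N41.RM.frob_norm (frob_eq (h.good v hv)) j).le

theorem IsLFunction.re (h : IsLFunction X d i m S α F) (v : HeightOneSpectrum (𝓞 K)) (k : ℕ) :
    (∑ j, α v j ^ (k + 1)).im = 0 := by
  by_cases hv : v ∈ S
  · exact Pool.Agent.N41.RM.psum_real_of_stable (Pool.Agent.N41.RM.conj_stable (h.bad v hv).2) _
  · exact Pool.Agent.N41.RM.psum_real_of_stable
      (Pool.Agent.N41.RM.frob_conj h.le (frob_eq (h.good v hv))) _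

theorem IsLFunction.eg (h : IsLFunction X d i m S α F) :
    Pool.Agent.N41.RM.EG ((i : ℝ) / 2) (Pool.Agent.N41.RM.qv (K := K)) α where
  two_le := fun v => Pool.Agent.R409.RA.two_le v
  sum := fun σ hσ => Pool.Agent.R409.RA.summable_nm hσ
  ha := h.norm
  real := h.re

theorem term_eq (h : IsLFunction X d i m S α F) (γ T : ℝ) (x : HeightOneSpectrum (𝓞 K) × ℕ) :
    term m α γ T x = Pool.Agent.Run7.h453.PC.aterm (Pool.Agent.N41.RM.qv (K := K)) α (m : ℝ) γ T x := by
  have hq : (2 : ℝ) ≤ Ideal.absNorm x.1.asIdeal := Pool.Agent.R409.RA.two_le x.1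
  have hq0 : (0 : ℝ) < Ideal.absNorm x.1.asIdeal := by linarith
  have e3 : ((∑ j, α x.1 j ^ (x.2 + 1)).re : ℂ) = ∑ j, α x.1 j ^ (x.2 + 1) := by
    apply Complex.ext
    · simp
    · rw [h.re x.1 x.2, Complex.ofReal_im]
  have e1 : Real.exp (-((m : ℝ) * ((x.2 + 1) * Real.log (Ideal.absNorm x.1.asIdeal)))) =
      ((Ideal.absNorm x.1.asIdeal : ℝ) ^ (m * (x.2 + 1)))⁻¹ := by
    rw [← Real.rpow_intCast, ← Real.rpow_neg hq0.le, Real.rpow_def_of_pos hq0]
    congr 1
    push_cast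
    ring
  unfold term Pool.Agent.Run7.h453.PC.aterm Pool.Agent.Run7.h453.PC.cs Pool.Agent.N41.RM.cq
    Pool.Agent.N41.RM.fq Pool.Agent.N41.RM.qv weight Pool.Agent.W189.ML.om
  rw [e1]
  push_cast
  rw [e3, div_mul_eq_div_div]
  ring

theorem W_eq (h : IsLFunction X d i m S α F) (γ T : ℝ) : W m α γ T =
    ∑' x, Pool.Agent.Run7.h453.PC.aterm (Pool.Agent.N41.RM.qv (K := K)) α (m : ℝ) γ T x :=
  tsum_congr fun x => term_eq h γ T x

theorem excess_eq : Pool.Agent.N41.RM.excess F (m : ℝ) = excess F m := rfl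

end proof

/-- **Theorem.** Let `F(s) = L(X, s)` be the L-function of `H^i(X)` for a smooth projective variety `X` over the
number field `K`, meromorphic on the real segment from the integer `m` to `i/2 + 1` (`IsLFunction`), and
`γ > π/2`.

* `W(T)` converges absolutely for `T > 0`; `F` is not identically zero near the points of the ray `[m, ∞)` and has
  only finitely many zeros and poles there; if it has no poles on `(m, ∞)`, then `Z ≥ 0`, and `Z = 0` if and only if
  it has no zeros there.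
* There are the order `ρ` and the leading coefficient `c`, a real number different from `0`, of `F` at `m`, such that
  `W(T) = ρ (log T - Λ_γ) - log |c| + π i Z + O(1/T)`.
* For every integer `ρ` the following are equivalent: `ord_{s=m} F = ρ`; `Re W(T) / log T → ρ`;
  `Re W(T_k) / log T_k → ρ` for one sequence `T_k → ∞`.
* For every integer `ρ` and complex number `B ≠ 0`, `F` has the order `ρ` and the leading coefficient `B` at
  `m` if and only if `exp (W(T_k)) / T_k^ρ → e^{-ρ Λ_γ} / B` for one sequence `T_k → ∞`.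
* For every integer `ρ` and complex number `D ≠ 0`, `F` has the order `ρ` and a leading coefficient in `ℚ^* D` at
  `m` if and only if `exp (W(T_k)) / T_k^ρ → e^{-ρ Λ_γ} / (y D)` for some rational `y ≠ 0` and one
  sequence `T_k → ∞`. -/
theorem result (K : Type) [Field K] [NumberField K] (n N d i : ℕ) (m : ℤ)
    (X : Set (MvPolynomial (Fin n) (𝓞 K))) (S : Finset (HeightOneSpectrum (𝓞 K)))
    (α : HeightOneSpectrum (𝓞 K) → Fin N → ℂ) (F : ℂ → ℂ) (h : IsLFunction X d i m S α F)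
    (γ : ℝ) (hγ : Real.pi / 2 < γ) :
    ((∀ T : ℝ, 0 < T → Summable fun x => ‖term m α γ T x‖) ∧
      (∀ x : ℝ, (m : ℝ) ≤ x → meromorphicOrderAt F (x : ℂ) ≠ ⊤) ∧
      {x : ℝ | (m : ℝ) ≤ x ∧ meromorphicOrderAt F (x : ℂ) ≠ 0}.Finite ∧
      ((∀ x : ℝ, (m : ℝ) < x → 0 ≤ meromorphicOrderAt F (x : ℂ)) → 0 ≤ excess F m ∧
        (excess F m = 0 ↔ ∀ x : ℝ, (m : ℝ) < x → meromorphicOrderAt F (x : ℂ) = 0))) ∧
    (∃ (ρ : ℤ) (c : ℝ), meromorphicOrderAt F (m : ℂ) = ρ ∧ c ≠ 0 ∧ Leading F m ρ c ∧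
      (fun T : ℝ => W m α γ T - mainTerm F m ρ c γ T) =O[atTop] (fun T : ℝ => 1 / T)) ∧
    (∀ ρ : ℤ, List.TFAE [
      meromorphicOrderAt F (m : ℂ) = ρ,
      Tendsto (fun T : ℝ => (W m α γ T).re / Real.log T) atTop (𝓝 ρ),
      ∃ T : ℕ → ℝ, Tendsto T atTop atTop ∧
        Tendsto (fun k => (W m α γ (T k)).re / Real.log (T k)) atTop (𝓝 ρ)]) ∧
    (∀ (ρ : ℤ) (B : ℂ), B ≠ 0 → (Leading F m ρ B ↔
      ∃ T : ℕ → ℝ, Tendsto T atTop atTop ∧
        Tendsto (fun k => Complex.exp (W m α γ (T k)) / (T k : ℂ) ^ ρ) atTop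
          (𝓝 (Complex.exp (-(ρ * Lam γ)) / B)))) ∧
    ∀ (ρ : ℤ) (D : ℂ), D ≠ 0 → ((∃ y : ℚ, y ≠ 0 ∧ Leading F m ρ (y * D)) ↔
      ∃ (y : ℚ) (T : ℕ → ℝ), y ≠ 0 ∧ Tendsto T atTop atTop ∧
        Tendsto (fun k => Complex.exp (W m α γ (T k)) / (T k : ℂ) ^ ρ) atTop
          (𝓝 (Complex.exp (-(ρ * Lam γ)) / (y * D)))) := by
  have E := h.eg
  have hmer : ∀ x : ℝ, (m : ℝ) ≤ x → x ≤ 1 + (i : ℝ) / 2 → MeromorphicAt F (x : ℂ) :=
    fun x h1 h2 => h.mero x h1 (by linarith)
  have hprod : ∀ s : ℂ, 1 + (i : ℝ) / 2 < s.re → F s = ∏' v : HeightOneSpectrum (𝓞 K),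
      ∏ j, (1 - α v j * (Pool.Agent.N41.RM.qv v : ℂ) ^ (-s))⁻¹ := fun s hs => by
    rw [h.prod s (by linarith)]
    unfold Pool.Agent.N41.RM.qv
    simp only [Complex.ofReal_natCast]
  obtain ⟨ρ₀, c, h1, h2, hc, h3, h4⟩ := Pool.Agent.Run7.h453.PC.any_law E hmer hprod hγ
  obtain ⟨h5, h6⟩ := Pool.Agent.Run7.h453.PC.any_finite E hmer hprod
  have h0 := Pool.Agent.Run7.h453.PC.excess_zero_iff' h5 h6
  have hWf : W m α γ = fun T => ∑' x, Pool.Agent.Run7.h453.PC.aterm
      (Pool.Agent.N41.RM.qv (K := K)) α (m : ℝ) γ T x := funext fun T => W_eq h γ T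
  rw [excess_eq] at h3 h0
  have hmm : (((m : ℝ) : ℂ)) = (m : ℂ) := by push_cast; rfl
  rw [hmm] at h1 h2
  have hmer1 : MeromorphicAt F (m : ℂ) := by
    by_cases hle : (m : ℝ) ≤ (i : ℝ) / 2 + 1
    · have := h.mero (m : ℝ) le_rfl hle
      rwa [hmm] at this
    · push Not at hle
      have := (Pool.Agent.Run7.h453.PC.eg_analytic E hprod (s := ((m : ℝ) : ℂ)) (by
        rw [Complex.ofReal_re]; linarith)).1.meromorphicAt
      rwa [hmm] at this
  have hlead : Leading F m ρ₀ c := Pool.Agent.N41.RM.lim_of_order hmer1 h1 h2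
  have hLam : Pool.Agent.W187.UR.Lam γ = Lam γ := rfl
  rw [hLam] at h3 h4
  have hcc : (c : ℂ) ≠ 0 := by exact_mod_cast hc
  have hWlaw : (fun T : ℝ => W m α γ T - mainTerm F m ρ₀ c γ T) =O[atTop]
      (fun T : ℝ => 1 / T) := by
    rw [hWf]
    exact h3
  have ht1 : Tendsto (fun T : ℝ => W m α γ T - mainTerm F m ρ₀ c γ T) atTop (𝓝 0) := by
    refine hWlaw.trans_tendsto ?_
    exact tendsto_const_nhds.div_atTop tendsto_id
  have hre1 : Tendsto (fun T : ℝ => (W m α γ T).re / Real.log T) atTop (𝓝 ρ₀) := by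
    refine Pool.Agent.Run7.h453.PC.re_div (c := ρ₀ * (-Lam γ) - Real.log |c| +
      Real.pi * excess F m * Complex.I) (ht1.congr fun T => ?_)
    unfold mainTerm
    ring
  have hA : Complex.exp (-(ρ₀ * Lam γ)) / (c : ℂ) ≠ 0 := div_ne_zero (Complex.exp_ne_zero _) hcc
  have hiff : ∀ (ρ : ℤ) (B : ℂ), B ≠ 0 → (Leading F m ρ B ↔
      ∃ T : ℕ → ℝ, Tendsto T atTop atTop ∧
        Tendsto (fun k => Complex.exp (W m α γ (T k)) / (T k : ℂ) ^ ρ) atTop
          (𝓝 (Complex.exp (-(ρ * Lam γ)) / B))) := by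
    intro ρ B hB
    have h4' : Tendsto (fun T : ℝ => Complex.exp (W m α γ T) / (T : ℂ) ^ ρ₀) atTop
        (𝓝 (Complex.exp (-(ρ₀ * Lam γ)) / c)) := by
      rw [hWf]
      exact h4
    constructor
    · intro h7
      obtain ⟨h8, h9⟩ := Pool.Agent.N41.RM.order_of_lim hmer1 hB h7
      have h10 : ρ₀ = ρ := by
        rw [h1] at h8
        exact_mod_cast h8
      have h11 : (c : ℂ) = B := by rw [← h2, h9]
      subst h10
      rw [← h11]
      exact ⟨fun k => k, tendsto_natCast_atTop_atTop, h4'.comp tendsto_natCast_atTop_atTop⟩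
    · rintro ⟨T, hT, h7⟩
      obtain ⟨h8, h9⟩ := Pool.Agent.Run7.h453.PC.iff_c hA
        (div_ne_zero (Complex.exp_ne_zero _) hB) h4' hT h7
      subst h8
      have h10 : (c : ℂ) = B := by
        have e1 := Complex.exp_ne_zero (-((ρ₀ : ℂ) * Lam γ))
        rw [div_eq_div_iff hcc hB] at h9
        exact (mul_left_cancel₀ e1 h9).symm
      rw [← h10]
      exact hlead
  refine ⟨⟨fun T hT => ?_, h5, h6, h0⟩, ⟨ρ₀, c, h1, hc, hlead, hWlaw⟩,
    fun ρ => ?_, hiff, fun ρ D hD => ?_⟩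
  · refine (Pool.Agent.Run7.h453.PC.aterm_summable E (m : ℝ) γ hT).congr fun x => ?_
    rw [term_eq h]
  · tfae_have 1 → 2 := by
      intro h7
      rw [h1] at h7
      have h8 : ρ₀ = ρ := by exact_mod_cast h7
      rw [← h8]
      exact hre1
    tfae_have 2 → 3 := fun h7 => ⟨fun k => k, tendsto_natCast_atTop_atTop,
      h7.comp tendsto_natCast_atTop_atTop⟩
    tfae_have 3 → 1 := by
      rintro ⟨T, hT, h7⟩
      have h8 := tendsto_nhds_unique (hre1.comp hT) h7
      rw [h1]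
      exact_mod_cast h8
    tfae_finish
  · constructor
    · rintro ⟨y, hy, h7⟩
      have hyc : (y : ℂ) ≠ 0 := by exact_mod_cast hy
      obtain ⟨T, hT, h8⟩ := (hiff ρ (y * D) (mul_ne_zero hyc hD)).1 h7
      exact ⟨y, T, hy, hT, h8⟩
    · rintro ⟨y, T, hy, hT, h8⟩
      have hyc : (y : ℂ) ≠ 0 := by exact_mod_cast hy
      exact ⟨y, hy, (hiff ρ (y * D) (mul_ne_zero hyc hD)).2 ⟨T, hT, h8⟩⟩

end Pool.Agent.Results.MP_15b3df_nt.TraceLimitFormula
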